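import Pool.Agent.Y164.SZ.Def

/-!
Project SZ, (LVL): squarefree polynomials with a given number of prime factors.
-/

set_option autoImplicit false
set_option linter.all false

namespace Pool.Agent.Y290.SZ

open Finset Polynomial
open Pool.Agent.Y164.SZ
open Pool.Agent.Y164.PS (coprime_of_not_dvd Fam
  Tp mem_Tp cell lgs cell_deg cell_eq lgs_eq self_cell cell_Tp cells_nonneg tup_prod fibre tuple_sum small_eq Pr mem_Pr card_Pr_ge
  Sf mem_Sf pf mem_pf numcore m_le Xt Xt_closed Xt_self sm conv)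
open scoped Classical

variable {ℓ : ℕ} [hℓ : Fact ℓ.Prime]
variable {k : Type} [Field k] [Fintype k] [DecidableEq k]
variable {W : Type} [AddCommGroup W] [Module (ZMod ℓ) W]
variable {ι τ : Type} [Fintype ι] [Fintype τ]
variable {Q : τ → k[X]} {D : FDat ℓ W τ}

theorem ok_iff (hQ : Fam Q) {n : ℕ} {T : ι → k[X]} (hT : T ∈ Tp k ι n) :
    ok Q T ↔ Function.Injective T ∧ nb Q (∏ i, T i) := by
  have h1 := (mem_Tp.1 hT).1
  constructor
  · intro h
    refine ⟨fun i j hij => Sum.inl_injective (h (a₁ := Sum.inl i) (a₂ := Sum.inl j) hij), ?_⟩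
    intro s hs
    obtain ⟨i, -, hd⟩ := ((hQ.irr s).prime.dvd_finset_prod_iff _).1 hs
    have h2 : T i = Q s := (eq_of_monic_of_associated (hQ.mon s) (h1 i).1
      ((hQ.irr s).associated_of_dvd (h1 i).2 hd)).symm
    have h3 : (Sum.inl i : ι ⊕ τ) = Sum.inr s := h h2
    cases h3
  · rintro ⟨h2, h3⟩
    rintro (i | s) (j | s') h
    · exact congrArg _ (h2 h)
    · exfalso
      apply h3 s'
      have h' : T i = Q s' := h
      rw [← h']
      exact dvd_prod_of_mem _ (mem_univ i)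
    · exfalso
      apply h3 s
      have h' : Q s = T j := h
      rw [h']
      exact dvd_prod_of_mem _ (mem_univ j)
    · exact congrArg _ (hQ.inj h)

theorem cl_iff (hS : SYM ℓ k) (hQ : Fam Q) {n : ℕ} {T : ι → k[X]} (hT : T ∈ Tp k ι n)
    (hn : nb Q (∏ i, T i)) : cl D Q T ↔ gcl D Q (∏ i, T i) := by
  have h1 := (mem_Tp.1 hT).1
  apply forall_congr'
  intro s
  have h2 : L ℓ (∏ i, T i) (Q s) = ∑ i, BT ℓ Q T i s := by
    apply hS.toSYM0.L_prod_left ι univ T (Q s) (hQ.irr s).ne_zero (fun i _ => (h1 i).1.ne_zero)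
    intro i _
    apply coprime_of_not_dvd (hQ.irr s)
    intro hd
    exact hn s (hd.trans (dvd_prod_of_mem _ (mem_univ i)))
  rw [h2]

theorem et_nonneg (n z : ℕ) : 0 ≤ et ℓ Q n z := by
  have h1 : (0 : ℝ) ≤ (ℓ * (n + dQ Q) : ℕ) := Nat.cast_nonneg _
  have h2 : (0 : ℝ) ≤ n := Nat.cast_nonneg _
  have h3 : (0 : ℝ) ≤ Fintype.card (τ) := Nat.cast_nonneg _
  have h4 : 0 ≤ (n : ℝ) * (n + Fintype.card (τ)) := mul_nonneg h2 (by linarith)
  unfold et
  exact div_nonneg (by linarith) (by positivity)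

theorem cell_inst (hS : SYM ℓ k) (hk : ringChar k ≠ 2) (hQ : Fam Q) (hq : 4 ≤ Fintype.card k)
    {n z : ℕ} (hz : 2 ≤ z) {T0 : ι → k[X]}
    (hT0 : T0 ∈ Tp k ι n) (hne : (lgs z T0).Nonempty) :
    Cell ℓ Q (cell z T0) (lgs z T0) (ℓ * (n + dQ Q)) (et ℓ Q n z) := by
  have hT := mem_Tp.1 hT0
  have hmn := m_le hT0
  have key : ∀ j ∈ lgs z T0, cell z T0 j = Pr k (T0 j).natDegree ∧ z ≤ (T0 j).natDegree ∧
      (T0 j).natDegree ≤ n := by
    intro j hj
    rw [lgs, mem_filter] at hj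
    refine ⟨?_, hj.2, ?_⟩
    · rw [cell, if_neg (by omega)]
    · rw [← hT.2]
      exact single_le_sum (f := fun i => (T0 i).natDegree) (fun _ _ => Nat.zero_le _) (mem_univ j)
  have est : ∀ j ∈ lgs z T0, ∀ S : ℝ, 0 ≤ S →
      ((T0 j).natDegree : ℝ) * S ≤ (5 * (ℓ * (n + dQ Q) : ℕ) + 2) *
        (Real.sqrt (Fintype.card k)) ^ (T0 j).natDegree →
      S + (Fintype.card (ι) + Fintype.card (τ)) ≤ et ℓ Q n z * (cell z T0 j).card := by
    intro j hj S hS0 hS
    obtain ⟨h1, h2, h3⟩ := key j hj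
    rw [h1]
    set m : ℕ := Fintype.card ι with hm
    set d := (T0 j).natDegree with hd
    have hd1 : 1 ≤ d := by omega
    set r : ℝ := Real.sqrt (Fintype.card k) with hr
    have hr2 : 2 ≤ r := by
      rw [hr]
      apply Real.le_sqrt_of_sq_le
      norm_num
      exact_mod_cast hq
    have hrr : (Fintype.card k : ℝ) = r ^ 2 := by
      rw [hr, Real.sq_sqrt (Nat.cast_nonneg _)]
    have h4 := card_Pr_ge (k := k) hk d hd1
    rw [← hr, hrr, ← pow_mul, mul_comm 2 d, pow_mul] at h4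
    have hdn : (d : ℝ) ≤ n := by exact_mod_cast h3
    have hmn' : (m : ℝ) ≤ n := by exact_mod_cast hmn
    exact numcore hr2 h2 hz hdn hmn' (Nat.cast_nonneg _) (Nat.cast_nonneg _) (Nat.cast_nonneg _)
      hS0 hS h4
  refine ⟨hS.toSYM0, hQ.mon, hQ.irr, ?_, ?_, ?_, ?_, ?_, et_nonneg _ _, hne⟩
  · intro i p hp
    rw [cell] at hp
    split_ifs at hp with h
    · rw [mem_singleton.1 hp]; exact (hT.1 i).1
    · exact (mem_Pr.1 hp).1
  · intro i p hp
    rw [cell] at hp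
    split_ifs at hp with h
    · rw [mem_singleton.1 hp]; exact (hT.1 i).2
    · exact (mem_Pr.1 hp).2.1
  · intro T hT'
    simp only [cell_deg hT']
    rw [hT.2]
    exact le_rfl
  · intro j hj M hM hM1 hM2 hM3
    apply est j hj _ (norm_nonneg _)
    obtain ⟨h1, h2, h3⟩ := key j hj
    rw [h1]
    refine (hS.char_sum M hM hM1 hM3 _ (by omega)).trans ?_
    apply mul_le_mul_of_nonneg_right _ (pow_nonneg (Real.sqrt_nonneg _) _)
    have : (M.natDegree : ℝ) ≤ (ℓ * (n + dQ Q) : ℕ) := by exact_mod_cast hM2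
    linarith
  · intro j hj
    have := est j hj 0 le_rfl (by
      rw [mul_zero]
      have h1 : (0 : ℝ) ≤ (ℓ * (n + dQ Q) : ℕ) := Nat.cast_nonneg _
      exact mul_nonneg (by linarith) (pow_nonneg (Real.sqrt_nonneg _) _))
    rw [zero_add] at this
    exact this

theorem lvl_tuples (hS : SYM ℓ k) (hk : ringChar k ≠ 2) (hQ : Fam Q) (hq : 4 ≤ Fintype.card k)
    {c : ℝ} {R w : ℕ} {C : ℝ} (hR : 1 ≤ R) (hCE : CE D Q c R w C)
    {n z s : ℕ} (hn : IsUnit ((n : ZMod ℓ) + D.N)) (hz : 2 ≤ z) (hs : 1 ≤ s)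
    (hm : (R + 1) * s ≤ Fintype.card ι) (hA : C * (1 / 2) ^ s ≤ 1)
    (hB : et ℓ Q n z * (C * (w : ℝ) ^ Fintype.card ι) ≤ 1) :
    c * ∑ T ∈ Xt k ι n z s, (if ok Q T then (1 : ℝ) else 0) ≤
      (ℓ : ℝ) ^ Fintype.card τ * ∑ T ∈ Xt k ι n z s, (if (ok Q T ∧ cl D Q T) ∧
        Triv D (AT ℓ T) (BT ℓ Q T) (fun i => ((T i).natDegree : ZMod ℓ)) then (1 : ℝ) else 0) := by
  have key : ∀ T0 ∈ Xt k ι n z s,
      c * OK Q (cell z T0) ≤ (ℓ : ℝ) ^ Fintype.card τ *
        XX D Q (fun i => ((T0 i).natDegree : ZMod ℓ)) (cell z T0) := by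
    intro T0 h0
    rw [Xt, mem_filter] at h0
    have hRs : s ≤ R * s := Nat.le_mul_of_pos_left s hR
    rw [add_mul, one_mul] at hm
    have hne : (lgs z T0).Nonempty := by
      rw [← card_pos]
      have := h0.2
      omega
    have hc := cell_inst (Q := Q) (ℓ := ℓ) hS hk hQ hq hz h0.1 hne
    apply hCE ι _ _ (lgs z T0) (ℓ * (n + dQ Q)) (et ℓ Q n z) s hc _ _ hs (by omega) h0.2 hA hB
    · have h1 : ∑ i, ((T0 i).natDegree : ZMod ℓ) = (n : ZMod ℓ) := by
        rw [← (mem_Tp.1 h0.1).2]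
        push_cast
        rfl
      rw [h1]
      exact hn
    · intro i hi
      rw [lgs, mem_filter] at hi
      push Not at hi
      exact ⟨T0 i, by rw [cell, if_pos (hi (mem_univ _))]⟩
  have h1 := cells_nonneg (z := z) (X := Xt k ι n z s) Xt_closed Xt_self
    (fun T => (ℓ : ℝ) ^ Fintype.card τ * (if (ok Q T ∧ cl D Q T) ∧
      Triv D (AT ℓ T) (BT ℓ Q T) (fun i => ((T i).natDegree : ZMod ℓ)) then (1 : ℝ) else 0) -
      c * (if ok Q T then (1 : ℝ) else 0)) (by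
      intro T0 h0
      have h2 := key T0 h0
      rw [sum_sub_distrib, ← mul_sum, ← mul_sum]
      have h3 : ∑ T ∈ Fintype.piFinset (cell z T0), (if (ok Q T ∧ cl D Q T) ∧
          Triv D (AT ℓ T) (BT ℓ Q T) (fun i => ((T i).natDegree : ZMod ℓ)) then (1 : ℝ) else 0)
          = XX D Q (fun i => ((T0 i).natDegree : ZMod ℓ)) (cell z T0) := by
        rw [XX]
        refine sum_congr rfl fun T hT => ?_
        simp only [cell_deg hT]
      rw [h3]
      exact sub_nonneg.2 h2)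
  rw [sum_sub_distrib, ← mul_sum, ← mul_sum] at h1
  exact sub_nonneg.1 h1

/-- squarefree polynomials with a given number of prime factors -/
theorem lvl' (hS : SYM ℓ k) (hk : ringChar k ≠ 2) (hQ : Fam Q) (hq : 4 ≤ Fintype.card k)
    (ι : Type) [Fintype ι] {G : k[X] → Prop} (hG : Imp D Q G)
    {c : ℝ} {R w : ℕ} {C : ℝ} (hR : 1 ≤ R) (hCE : CE D Q c R w C)
    {n m z s : ℕ} (hcm : Fintype.card ι = m) (hn : IsUnit ((n : ZMod ℓ) + D.N)) (hz : 2 ≤ z)
    (hs : 1 ≤ s) (hm : (R + 1) * s ≤ m) (hA : C * (1 / 2) ^ s ≤ 1)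
    (hB : et ℓ Q n z * (C * (w : ℝ) ^ m) ≤ 1) :
    c * (((Sf k n).filter fun E => (pf E).card = m ∧ sm z E ≤ s ∧ nb Q E).card : ℝ) ≤
      (ℓ : ℝ) ^ Fintype.card τ * (((Sf k n).filter fun E => (pf E).card = m ∧ sm z E ≤ s ∧
        P2 G D Q E).card : ℝ) := by
  have h0 := lvl_tuples (ι := ι) hS hk hQ hq hR hCE hn hz hs (by rw [hcm]; exact hm) hA
    (by rw [hcm]; exact hB)
  have hf : (0 : ℝ) < ((Fintype.card ι).factorial : ℝ) := by
    exact_mod_cast Nat.factorial_pos _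
  have c2 := conv (k := k) (ι := ι) n z s (nb Q)
  have c3 := conv (k := k) (ι := ι) n z s (P2 G D Q)
  rw [hcm] at c2 c3
  rw [hcm] at hf
  have e2 : ∑ T ∈ Xt k ι n z s, (if ok Q T then (1 : ℝ) else 0)
      = ∑ T ∈ Xt k ι n z s, (if Function.Injective T ∧ nb Q (∏ i, T i)
        then (1 : ℝ) else 0) := by
    refine sum_congr rfl fun T hT => ?_
    rw [Xt, mem_filter] at hT
    simp only [ok_iff hQ hT.1]
  have e3 : ∑ T ∈ Xt k ι n z s, (if (ok Q T ∧ cl D Q T) ∧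
        Triv D (AT ℓ T) (BT ℓ Q T) (fun i => ((T i).natDegree : ZMod ℓ)) then (1 : ℝ) else 0)
      ≤ ∑ T ∈ Xt k ι n z s, (if Function.Injective T ∧ P2 G D Q (∏ i, T i) then (1 : ℝ) else 0) := by
    apply sum_le_sum
    intro T hT
    rw [Xt, mem_filter] at hT
    by_cases h1 : (ok Q T ∧ cl D Q T) ∧
        Triv D (AT ℓ T) (BT ℓ Q T) (fun i => ((T i).natDegree : ZMod ℓ))
    · rw [if_pos h1]
      obtain ⟨⟨h2, h3⟩, h4⟩ := h1
      have h5 := (ok_iff hQ hT.1).1 h2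
      have h6 := (cl_iff hS hQ hT.1 h5.2).1 h3
      have h7 := (mem_Tp.1 hT.1)
      have hR : Fam (Sum.elim T (Q)) := by
        refine ⟨?_, ?_, h2⟩
        · rintro (i | s)
          · exact (h7.1 i).1
          · exact hQ.mon s
        · rintro (i | s)
          · exact (h7.1 i).2
          · exact hQ.irr s
      have h8 : IsUnit (∑ i, ((T i).natDegree : ZMod ℓ) + D.N) := by
        have h9 : ∑ i, ((T i).natDegree : ZMod ℓ) = (n : ZMod ℓ) := by
          rw [← h7.2]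
          push_cast
          rfl
        rw [h9]
        exact hn
      have h9 : G (∏ i, T i) := hG ι T hR h3 h8 h4
      rw [if_pos ⟨h5.1, ⟨h5.2, h6⟩, h9⟩]
    · rw [if_neg h1]
      split_ifs <;> norm_num
  rw [e2, c2] at h0
  rw [c3] at e3
  have hl : (0 : ℝ) ≤ (ℓ : ℝ) ^ Fintype.card τ := by positivity
  have h1 : (m.factorial : ℝ) * (c * (((Sf k n).filter fun E => (pf E).card = m ∧
      sm z E ≤ s ∧ nb Q E).card : ℝ)) ≤ (m.factorial : ℝ) *
      ((ℓ : ℝ) ^ Fintype.card τ * (((Sf k n).filter fun E => (pf E).card = m ∧ sm z E ≤ s ∧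
      P2 G D Q E).card : ℝ)) := by
    have h2 := h0.trans (mul_le_mul_of_nonneg_left e3 hl)
    linarith
  exact le_of_mul_le_mul_left h1 hf

theorem t : S_LVL := by
  intro ℓ _ k _ _ _ hS hk hq W τ _ _ _ Q hQ G D hG c _ R w C hR _ _ hCE n m z s hn hz hs hm hA hB
  exact lvl' hS hk hQ hq (Fin m) hG hR hCE (Fintype.card_fin m) hn hz hs hm hA hB

end Pool.Agent.Y290.SZ
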